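import Pool.Agent.K1H77.CG.Stm

/-! # Project CG: local automorphisms -/

set_option autoImplicit false

open Finset

namespace Pool.Agent.K1H4.CG

open Pool.Agent.K1H77.CG

variable {n : ℕ} {M : Equiv.Perm (HE n)}

/-- no three edge-ends at `v` have the same neighbour -/
lemma no_triple (hn : 2 < n) (hM : IsMat M) (hC : Conn M) (v w : Fin n) :
    ¬ ∀ i, (M (v, i)).1 = w := by
  intro h
  have hinj : Function.Injective (fun i : Fin 3 => (M (v, i)).2) := by
    intro i j hij
    have h1 : M (v, i) = M (v, j) := Prod.ext ((h i).trans (h j).symm) hij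
    exact (Prod.ext_iff.1 (M.injective h1)).2
  have hsur := Finite.surjective_of_injective hinj
  have hS := hC {v, w} ⟨v, by simp⟩ (by
    intro e he
    rw [mem_insert, mem_singleton] at he ⊢
    rcases he with he | he
    · right
      have : e = (v, e.2) := Prod.ext he rfl
      rw [this]
      exact h _
    · left
      obtain ⟨i, hi⟩ := hsur e.2
      have h1 : e = M (v, i) := Prod.ext (he.trans (h i).symm) hi.symm
      rw [h1, hM.1])
  have h1 : (univ : Finset (Fin n)).card ≤ 2 := by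
    rw [← hS]
    exact card_le_two
  rw [card_univ, Fintype.card_fin] at h1
  omega

/-- `h'` is a partner of `h` -/
def Par (M : Equiv.Perm (HE n)) (h h' : HE n) : Prop :=
  h' ≠ h ∧ h'.1 = h.1 ∧ (M h').1 = (M h).1

lemma Par.symm {h h' : HE n} (hp : Par M h h') : Par M h' h :=
  ⟨hp.1.symm, hp.2.1.symm, hp.2.2.symm⟩

lemma par_unique (hn : 2 < n) (hM : IsMat M) (hC : Conn M) {h h' h'' : HE n} (h1 : Par M h h')
    (h2 : Par M h h'') : h' = h'' := by
  by_contra hne
  apply no_triple hn hM hC h.1 (M h).1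
  have key : ∀ a b c : Fin 3, b ≠ a → c ≠ a → b ≠ c → ∀ i, i = a ∨ i = b ∨ i = c := by decide
  intro i
  have e1 : h'.2 ≠ h.2 := fun e => h1.1 (Prod.ext h1.2.1 e)
  have e2 : h''.2 ≠ h.2 := fun e => h2.1 (Prod.ext h2.2.1 e)
  have e3 : h'.2 ≠ h''.2 := fun e => hne (Prod.ext (h1.2.1.trans h2.2.1.symm) e)
  rcases key h.2 h'.2 h''.2 e1 e2 e3 i with hi | hi | hi
  · rw [hi]
  · rw [hi, ← h1.2.2]
    congr 2
    exact Prod.ext h1.2.1.symm rfl
  · rw [hi, ← h2.2.2]
    congr 2
    exact Prod.ext h2.2.1.symm rfl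

lemma Par.map (hM : IsMat M) {h h' : HE n} (hp : Par M h h') : Par M (M h) (M h') := by
  refine ⟨fun e => hp.1 (M.injective e), hp.2.2, ?_⟩
  rw [hM.1, hM.1]
  exact hp.2.1

open Classical in
/-- the partner -/
noncomputable def sw (M : Equiv.Perm (HE n)) (h : HE n) : HE n :=
  if hp : ∃ h', Par M h h' then hp.choose else h

lemma sw_par {h : HE n} (hp : ∃ h', Par M h h') : Par M h (sw M h) := by
  unfold sw
  rw [dif_pos hp]
  exact hp.choose_spec

lemma sw_not {h : HE n} (hp : ¬ ∃ h', Par M h h') : sw M h = h := by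
  unfold sw
  rw [dif_neg hp]

lemma sw_fst (h : HE n) : (sw M h).1 = h.1 := by
  by_cases hp : ∃ h', Par M h h'
  · exact (sw_par hp).2.1
  · rw [sw_not hp]

lemma sw_inv (hn : 2 < n) (hM : IsMat M) (hC : Conn M) (h : HE n) : sw M (sw M h) = h := by
  by_cases hp : ∃ h', Par M h h'
  · have h1 := sw_par hp
    have h2 : ∃ h', Par M (sw M h) h' := ⟨h, h1.symm⟩
    exact par_unique hn hM hC (sw_par h2) h1.symm
  · rw [sw_not hp, sw_not hp]

lemma sw_comm (hn : 2 < n) (hM : IsMat M) (hC : Conn M) (h : HE n) : sw M (M h) = M (sw M h) := by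
  by_cases hp : ∃ h', Par M h h'
  · have h1 := (sw_par hp).map hM
    exact par_unique hn hM hC (sw_par ⟨_, h1⟩) h1
  · have hp' : ¬ ∃ h', Par M (M h) h' := by
      rintro ⟨g, hg⟩
      have h2 := hg.map hM
      rw [hM.1] at h2
      exact hp ⟨_, h2⟩
    rw [sw_not hp, sw_not hp']

open Classical in
/-- the special vertices -/
noncomputable def Spc (M : Equiv.Perm (HE n)) : Finset (Fin n) :=
  univ.filter (fun v => ∃ i h', Par M (v, i) h')

open Classical in
/-- the restriction of `σ` to the special vertices -/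
noncomputable def res (M σ : Equiv.Perm (HE n)) (v : Spc M) : Equiv.Perm (Fin 3) :=
  if h : Function.Injective (fun i : Fin 3 => (σ (v.1, i)).2) then
    Equiv.ofBijective _ (Finite.injective_iff_bijective.1 h) else 1

lemma res_apply {σ : Equiv.Perm (HE n)} (hσ : ∀ h, (σ h).1 = h.1) (v : Spc M) (i : Fin 3) :
    res M σ v i = (σ (v.1, i)).2 := by
  have hinj : Function.Injective (fun i : Fin 3 => (σ (v.1, i)).2) := by
    intro i j hij
    have h1 : σ (v.1, i) = σ (v.1, j) := Prod.ext (by rw [hσ, hσ]) hij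
    exact (Prod.ext_iff.1 (σ.injective h1)).2
  unfold res
  rw [dif_pos hinj]
  rfl

open Classical in
lemma stab0_le (M : Equiv.Perm (HE n)) : stab0 M ≤ 6 ^ (Spc M).card := by
  have h6 : Fintype.card (Spc M → Equiv.Perm (Fin 3)) = 6 ^ (Spc M).card := by
    rw [Fintype.card_fun, Fintype.card_perm, Fintype.card_coe]
    rfl
  rw [← h6, ← card_univ]
  unfold stab0
  refine card_le_card_of_injOn (res M) (fun σ _ => mem_univ _) ?_
  intro σ hσ τ hτ he
  simp only [coe_filter, Set.mem_ofPred_eq, Wr0, mem_filter, mem_univ, true_and] at hσ hτ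
  refine Equiv.ext fun h => ?_
  have fix : ∀ ρ : Equiv.Perm (HE n), (∀ h, (ρ h).1 = h.1) → (∀ h, ρ (M h) = M (ρ h)) →
      h.1 ∉ Spc M → ρ h = h := by
    intro ρ h1 h2 h3
    by_contra hne
    apply h3
    unfold Spc
    rw [mem_filter]
    refine ⟨mem_univ _, h.2, ρ h, hne, h1 h, ?_⟩
    rw [← h2, h1]
  by_cases hv : h.1 ∈ Spc M
  · refine Prod.ext ((hσ.1 h).trans (hτ.1 h).symm) ?_
    have e1 := res_apply hσ.1 ⟨h.1, hv⟩ h.2
    have e2 := res_apply hτ.1 ⟨h.1, hv⟩ h.2
    rw [he, e2] at e1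
    exact e1.symm
  · rw [fix σ hσ.1 hσ.2 hv, fix τ hτ.1 hτ.2 hv]

theorem t_SQ : S_SQ := by
  intro n M hn hM hC
  obtain ⟨σ, hσ⟩ : ∃ σ : Equiv.Perm (HE n), ∀ h, σ h = sw M h :=
    ⟨Function.Involutive.toPerm (sw M) (sw_inv hn hM hC), fun h => rfl⟩
  have hmem : σ ∈ (Wr0 n).filter (fun σ => ∀ h, σ (M h) = M (σ h)) := by
    rw [mem_filter]
    refine ⟨?_, fun h => ?_⟩
    · unfold Wr0
      rw [mem_filter]
      exact ⟨mem_univ _, fun h => by rw [hσ]; exact sw_fst h⟩
    · rw [hσ, hσ]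
      exact sw_comm hn hM hC h
  have hmv : mv σ = (Spc M).card := by
    unfold mv Spc
    congr 1
    ext v
    simp only [mem_filter, mem_univ, true_and]
    constructor
    · rintro ⟨i, hi⟩
      rw [hσ] at hi
      by_cases hp : ∃ h', Par M (v, i) h'
      · exact ⟨i, hp⟩
      · exact absurd (sw_not hp) hi
    · rintro ⟨i, hp⟩
      refine ⟨i, ?_⟩
      rw [hσ]
      exact (sw_par hp).1
  calc stab0 M ^ 2 ≤ (6 ^ (Spc M).card) ^ 2 := Nat.pow_le_pow_left (stab0_le M) 2
    _ = 36 ^ mv σ := by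
      rw [hmv, ← pow_mul, mul_comm, pow_mul]
      norm_num
    _ ≤ _ := single_le_sum (f := fun σ => 36 ^ mv σ) (fun _ _ => Nat.zero_le _) hmem

end Pool.Agent.K1H4.CG
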